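import Pool.Agent.Y563.BC.Bool

set_option autoImplicit false

/-!
# Cohesive sets for partitions and Boolean combinations of `Σ⁰_n` sets

For every `n ≥ 3`, no set that is almost homogeneous for all *computable* partitions of exponent
`n` has an infinite subset that is a Boolean combination of `Σ⁰_n` sets. In particular no
`n`-cohesive set is a Boolean combination of `Σ⁰_n` sets, let alone `Π⁰_n`.
-/

namespace Pool.Agent.Results.MP_c357a0_lc.BooleanCombinations

open Pool.Agent.Results.MP_c357a0_lc.NoPiNCohesive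
open Pool.Agent.Y563.BC

/-- A set is almost homogeneous for every computable partition of exponent `n`, and infinite. -/
def NRCohesive (n : ℕ) (H : Set ℕ) : Prop :=
  H.Infinite ∧ ∀ C : Set (Finset ℕ), IsCompPartition n C → AlmostHomogeneous n H C

lemma comp_ce {n : ℕ} {C : Set (Finset ℕ)} (h : IsCompPartition n C) : IsCEPartition n C :=
  ⟨h.1, ComputablePred.to_re h.2⟩

/-- Let `n ≥ 3`.
(1) Every infinite Boolean combination `A` of `Σ⁰_n` sets fails to be almost homogeneous for some
computable partition of exponent `n`.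
(2) Hence if `H` is almost homogeneous for all computable partitions of exponent `n`, then no
infinite subset of `H` is a Boolean combination of `Σ⁰_n` sets.
(3) In particular no infinite subset of an `n`-cohesive set is a Boolean combination of `Σ⁰_n`
sets.
(4) In particular no `n`-cohesive set is `Π⁰_n`. -/
theorem result : ∀ n : ℕ, 3 ≤ n →
    (∀ A : Set ℕ, A.Infinite → BoolSigma n A →
      ∃ C, IsCompPartition n C ∧ ¬ AlmostHomogeneous n A C) ∧
    (∀ H : Set ℕ, NRCohesive n H → ∀ B ⊆ H, B.Infinite → ¬ BoolSigma n B) ∧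
    (∀ H : Set ℕ, NCohesive n H → ∀ B ⊆ H, B.Infinite → ¬ BoolSigma n B) ∧
    ¬ ∃ A : Set ℕ, NCohesive n A ∧ IsPi n A := by
  intro n hn
  have h2 : ∀ H : Set ℕ, NRCohesive n H → ∀ B ⊆ H, B.Infinite → ¬ BoolSigma n B := by
    rintro H ⟨-, hH⟩ B hB hinf hbool
    obtain ⟨C, hC, hnot⟩ := bool_main n hn B hinf hbool
    exact hnot (almost_mono hB (hH C hC))
  have h3 : ∀ H : Set ℕ, NCohesive n H → ∀ B ⊆ H, B.Infinite → ¬ BoolSigma n B := by
    rintro H ⟨hinf, hH⟩
    exact h2 H ⟨hinf, fun C hC => hH C (comp_ce hC)⟩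
  refine ⟨bool_main n hn, h2, h3, ?_⟩
  rintro ⟨A, hA, hPi⟩
  exact h3 A hA A subset_rfl hA.1 (bool_of_pi hPi)

end Pool.Agent.Results.MP_c357a0_lc.BooleanCombinations
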